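import Pool.Agent.Y900.QF.SqfB
import Pool.Agent.Y752.QF.Stm2

/-!
# Project QF: the statement `S_SQF`
-/

set_option autoImplicit false

namespace Pool.Agent.Y900.QF

theorem SQF : Pool.Agent.Y752.QF.S_SQF := sqf

end Pool.Agent.Y900.QF
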