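import Pool.Agent.H66R2.RZ_FI1

/-!
# Project QF: squarefree numbers in a class mod 8, coprime to `m` (preparations)
-/

set_option autoImplicit false

namespace Pool.Agent.Y900.QF

open Finset Filter Topology
open Pool.Agent.H66R2.RZFI1 (mu mu_abs mu_summable mu_tsum mu_sq_eq)

/-- one residue class -/
theorem cls (q : ℕ) (hq : 0 < q) (c Y : ℕ) :
    |(((Icc 1 Y).filter fun e => e ≡ c [MOD q]).card : ℝ) - (Y : ℝ) / q| ≤ 1 := by
  have h0 : (Icc 1 Y) = Ioc 0 Y := by
    ext x
    simp only [mem_Icc, mem_Ioc]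
    omega
  have h1 := Nat.Ioc_filter_modEq_card 0 Y hq c
  rw [h0]
  set N : ℕ := ((Ioc 0 Y).filter fun e => e ≡ c [MOD q]).card with hN
  have hq' : (0 : ℚ) < q := by exact_mod_cast hq
  have u1 := Int.floor_le (((Y : ℕ) - (c : ℕ) : ℚ) / (q : ℚ))
  have u2 := Int.lt_floor_add_one (((Y : ℕ) - (c : ℕ) : ℚ) / (q : ℚ))
  have v1 := Int.floor_le ((((0 : ℕ) : ℚ) - (c : ℕ) : ℚ) / (q : ℚ))
  have v2 := Int.lt_floor_add_one ((((0 : ℕ) : ℚ) - (c : ℕ) : ℚ) / (q : ℚ))
  set u : ℤ := ⌊(((Y : ℕ) - (c : ℕ) : ℚ) / (q : ℚ))⌋ with hu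
  set v : ℤ := ⌊((((0 : ℕ) : ℚ) - (c : ℕ) : ℚ) / (q : ℚ))⌋ with hv
  have e1 : ((Y : ℚ) - c) / q = (Y : ℚ) / q - (c : ℚ) / q := by rw [sub_div]
  have e2 : (((0 : ℕ) : ℚ) - c) / q = - ((c : ℚ) / q) := by rw [Nat.cast_zero, zero_sub, neg_div]
  rw [e1] at u1 u2
  rw [e2] at v1 v2
  have hY : (0 : ℚ) ≤ (Y : ℚ) / q := by positivity
  have h2 : ((N : ℕ) : ℚ) = max ((u : ℚ) - v) 0 := by
    have := congrArg (fun z : ℤ => (z : ℚ)) h1
    push_cast at this
    exact this
  have h3 : |((N : ℕ) : ℚ) - (Y : ℚ) / q| ≤ 1 := by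
    rw [h2, abs_le]
    rcases le_total ((u : ℚ) - v) 0 with h | h
    · rw [max_eq_right h]
      constructor <;> linarith
    · rw [max_eq_left h]
      constructor <;> linarith
  have h4 : ((|((N : ℕ) : ℚ) - (Y : ℚ) / q| : ℚ) : ℝ) ≤ ((1 : ℚ) : ℝ) := Rat.cast_le.2 h3
  push_cast at h4
  exact h4

theorem mu_sum (g : ℕ) : ∑ d ∈ g.divisors, mu d = if g = 1 then 1 else 0 := by
  have h2 : (∑ d ∈ g.divisors, (ArithmeticFunction.moebius d : ℤ)) = if g = 1 then 1 else 0 := by
    have := congrArg (fun f => f g) ArithmeticFunction.moebius_mul_coe_zeta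
    simp only [ArithmeticFunction.coe_mul_zeta_apply, ArithmeticFunction.one_apply] at this
    exact this
  have := congrArg (fun z : ℤ => (z : ℝ)) h2
  push_cast at this
  exact this

/-- detection of coprimality -/
theorem mu_cop (n P : ℕ) (hP : P ≠ 0) :
    (if n.Coprime P then (1 : ℝ) else 0) = ∑ f ∈ P.divisors, if f ∣ n then mu f else 0 := by
  rw [← Finset.sum_filter]
  have h : P.divisors.filter (fun f => f ∣ n) = (Nat.gcd n P).divisors := by
    ext f
    rw [mem_filter, Nat.mem_divisors, Nat.mem_divisors, Nat.dvd_gcd_iff]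
    have : Nat.gcd n P ≠ 0 := fun h0 => hP (Nat.eq_zero_of_gcd_eq_zero_right h0)
    tauto
  rw [h, mu_sum]

/-- numbers in a class mod 8 divisible by an odd number -/
theorem cls8 (f a Y : ℕ) (hf : Odd f) (ha : a < 8) :
    |(((Icc 1 Y).filter fun e => e % 8 = a ∧ f ∣ e).card : ℝ) - (Y : ℝ) / (8 * f)| ≤ 1 := by
  have hf0 : 0 < f := hf.pos
  have hco : Nat.Coprime 8 f := by
    have : Nat.Coprime (2 ^ 3) f := Nat.Coprime.pow_left 3 (Nat.coprime_two_left.2 hf)
    simpa using this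
  obtain ⟨c, hc1, hc2⟩ := Nat.chineseRemainder hco a 0
  have h := cls (8 * f) (by positivity) c Y
  have e : (Icc 1 Y).filter (fun e => e % 8 = a ∧ f ∣ e) =
      (Icc 1 Y).filter (fun e => e ≡ c [MOD (8 * f)]) := by
    refine Finset.filter_congr fun e _ => ?_
    rw [← Nat.modEq_and_modEq_iff_modEq_mul hco]
    refine and_congr ?_ ?_
    · constructor
      · intro h
        have : e ≡ a [MOD 8] := by rw [Nat.ModEq, h, Nat.mod_eq_of_lt ha]
        exact this.trans hc1.symm
      · intro h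
        have : e ≡ a [MOD 8] := h.trans hc1
        rw [Nat.ModEq, Nat.mod_eq_of_lt ha] at this
        exact this
    · constructor
      · intro h
        exact ((Nat.modEq_zero_iff_dvd.2 h).trans hc2.symm)
      · intro h
        exact Nat.modEq_zero_iff_dvd.1 (h.trans hc2)
  rw [e]
  push_cast at h
  exact h

open Classical in
/-- numbers in a class mod 8 coprime to an odd squarefree number -/
noncomputable def Ac (P a Y : ℕ) : ℕ := ((Icc 1 Y).filter fun e => e % 8 = a ∧ e.Coprime P).card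

theorem mu_div (P : ℕ) (hs : Squarefree P) :
    ∑ f ∈ P.divisors, mu f / f = ∏ p ∈ P.primeFactors, (1 - 1 / (p : ℝ)) := by
  set g : ArithmeticFunction ℝ := ⟨fun n => 1 / (n : ℝ), by simp⟩ with hg
  have hm : g.IsMultiplicative := by
    refine ⟨by simp [hg], ?_⟩
    intro m n _
    simp only [hg, ArithmeticFunction.coe_mk]
    push_cast
    rw [one_div_mul_one_div]
  have h := ArithmeticFunction.IsMultiplicative.prodPrimeFactors_one_sub_of_squarefree g hm hs
  have h1 : ∏ p ∈ P.primeFactors, (1 - 1 / (p : ℝ)) = ∏ p ∈ P.primeFactors, (1 - g p) := rfl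
  rw [h1, h]
  refine Finset.sum_congr rfl fun f _ => ?_
  show mu f / f = ((ArithmeticFunction.moebius f : ℤ) : ℝ) * (1 / (f : ℝ))
  rw [mul_one_div]
  rfl

theorem Ac_bd (P a Y : ℕ) (hP : Odd P) (hs : Squarefree P) (ha : a < 8) :
    |(Ac P a Y : ℝ) - (Y : ℝ) / 8 * ∏ p ∈ P.primeFactors, (1 - 1 / (p : ℝ))| ≤
      P.divisors.card := by
  classical
  have hP0 : P ≠ 0 := hP.pos.ne'
  have h1 : (Ac P a Y : ℝ) = ∑ f ∈ P.divisors, mu f *
      (((Icc 1 Y).filter fun e => e % 8 = a ∧ f ∣ e).card : ℝ) := by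
    unfold Ac
    rw [Finset.card_filter]
    push_cast
    have h2 : ∀ e ∈ Icc 1 Y, (if e % 8 = a ∧ e.Coprime P then (1 : ℝ) else 0) =
        ∑ f ∈ P.divisors, mu f * (if e % 8 = a ∧ f ∣ e then (1 : ℝ) else 0) := by
      intro e _
      by_cases h8 : e % 8 = a
      · have := mu_cop e P hP0
        simp only [h8, true_and]
        rw [this]
        refine Finset.sum_congr rfl fun f _ => ?_
        rw [mul_ite, mul_one, mul_zero]
      · simp [h8]
    rw [Finset.sum_congr rfl h2, Finset.sum_comm]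
    refine Finset.sum_congr rfl fun f _ => ?_
    rw [← Finset.mul_sum, Finset.card_filter]
    push_cast
    rfl
  have h2 : (Y : ℝ) / 8 * ∏ p ∈ P.primeFactors, (1 - 1 / (p : ℝ)) =
      ∑ f ∈ P.divisors, mu f * ((Y : ℝ) / (8 * f)) := by
    rw [← mu_div P hs, Finset.mul_sum]
    refine Finset.sum_congr rfl fun f hf => ?_
    have : (f : ℝ) ≠ 0 := by
      have := Nat.pos_of_mem_divisors hf
      positivity
    field_simp
  rw [h1, h2, ← Finset.sum_sub_distrib]
  calc |∑ f ∈ P.divisors, (mu f * (((Icc 1 Y).filter fun e => e % 8 = a ∧ f ∣ e).card : ℝ) -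
        mu f * ((Y : ℝ) / (8 * f)))|
      ≤ ∑ f ∈ P.divisors, |mu f * (((Icc 1 Y).filter fun e => e % 8 = a ∧ f ∣ e).card : ℝ) -
        mu f * ((Y : ℝ) / (8 * f))| := Finset.abs_sum_le_sum_abs _ _
    _ ≤ ∑ _f ∈ P.divisors, (1 : ℝ) := by
        refine Finset.sum_le_sum fun f hf => ?_
        rw [← mul_sub, abs_mul]
        have hfo : Odd f := Odd.of_dvd_nat hP (Nat.dvd_of_mem_divisors hf)
        have k1 := mu_abs f
        have k2 := cls8 f a Y hfo ha
        calc _ ≤ 1 * 1 := mul_le_mul k1 k2 (abs_nonneg _) zero_le_one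
          _ = 1 := one_mul 1
    _ = P.divisors.card := by simp

/-! ### The Euler product -/

/-- the terms coprime to `M` -/
noncomputable def F (M l : ℕ) : ℝ := if l.Coprime M then mu l / (l : ℝ) ^ 2 else 0

theorem F_le (M l : ℕ) : |F M l| ≤ 1 / (l : ℝ) ^ 2 := by
  unfold F
  split_ifs
  · rw [abs_div, abs_of_nonneg (by positivity : (0 : ℝ) ≤ (l : ℝ) ^ 2)]
    exact div_le_div_of_nonneg_right (mu_abs l) (by positivity)
  · rw [abs_zero]
    positivity

theorem F_summable (M : ℕ) : Summable fun l => ‖F M l‖ := by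
  refine Summable.of_nonneg_of_le (fun _ => norm_nonneg _) (fun l => ?_)
    (Real.summable_one_div_nat_pow.mpr one_lt_two)
  rw [Real.norm_eq_abs]
  exact F_le M l

theorem F_hasProd (M : ℕ) : HasProd (fun p : Nat.Primes =>
    if (p : ℕ) ∣ M then (1 : ℝ) else 1 - 1 / ((p : ℕ) : ℝ) ^ 2) (∑' l, F M l) := by
  have h1 : F M 1 = 1 := by simp [F, mu]
  have h0 : F M 0 = 0 := by simp [F, mu]
  have hmul : ∀ {m n : ℕ}, Nat.Coprime m n → F M (m * n) = F M m * F M n := by
    intro m n hmn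
    unfold F
    simp only [Nat.coprime_mul_iff_left]
    by_cases hm : m.Coprime M
    · by_cases hn : n.Coprime M
      · rw [if_pos ⟨hm, hn⟩, if_pos hm, if_pos hn]
        have : mu (m * n) = mu m * mu n := by
          unfold mu
          rw [ArithmeticFunction.isMultiplicative_moebius.map_mul_of_coprime hmn]
          push_cast
          rfl
        rw [this]
        push_cast
        rw [mul_pow, mul_div_mul_comm]
      · rw [if_neg (fun h => hn h.2), if_neg hn, mul_zero]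
    · rw [if_neg (fun h => hm h.1), if_neg hm, zero_mul]
  have h := EulerProduct.eulerProduct_hasProd (f := F M) h1 hmul (F_summable M) h0
  have e : (fun p : Nat.Primes => ∑' e, F M ((p : ℕ) ^ e)) = fun p : Nat.Primes =>
      if (p : ℕ) ∣ M then (1 : ℝ) else 1 - 1 / ((p : ℕ) : ℝ) ^ 2 := by
    funext p
    have hp : (p : ℕ).Prime := p.2
    rw [tsum_eq_sum (s := {0, 1})]
    · rw [Finset.sum_pair (by norm_num), pow_zero, h1, pow_one]
      unfold F
      have hmu : mu (p : ℕ) = -1 := by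
        unfold mu
        rw [ArithmeticFunction.moebius_apply_prime hp]
        norm_num
      by_cases hd : (p : ℕ) ∣ M
      · have hnc : ¬ (p : ℕ).Coprime M := by
          rw [hp.coprime_iff_not_dvd]
          exact not_not.2 hd
        rw [if_neg hnc, if_pos hd, add_zero]
      · have hnc : (p : ℕ).Coprime M := by
          rw [hp.coprime_iff_not_dvd]
          exact hd
        rw [if_pos hnc, if_neg hd, hmu]
        ring
    · intro k hk
      simp only [mem_insert, mem_singleton, not_or] at hk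
      have hmu : mu ((p : ℕ) ^ k) = 0 := by
        unfold mu
        rw [ArithmeticFunction.moebius_apply_prime_pow hp hk.1, if_neg hk.2]
        norm_num
      unfold F
      rw [hmu, zero_div, ite_self]
  rwa [e] at h

/-- the sum over the numbers coprime to `M` -/
theorem F_tsum (M : ℕ) (hM : M ≠ 0) :
    (∑' l, F M l) * ∏ p ∈ M.primeFactors, (1 - 1 / (p : ℝ) ^ 2) = 6 / Real.pi ^ 2 := by
  have hA := F_hasProd M
  have hB := F_hasProd 1
  have h6 : (∑' l, F 1 l) = 6 / Real.pi ^ 2 := by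
    rw [← mu_tsum]
    refine tsum_congr fun l => ?_
    unfold F
    rw [if_pos (Nat.coprime_one_right l)]
  have hC : HasProd (fun p : Nat.Primes =>
      if (p : ℕ) ∣ M then 1 - 1 / ((p : ℕ) : ℝ) ^ 2 else (1 : ℝ))
      (∏ p ∈ M.primeFactors, (1 - 1 / (p : ℝ) ^ 2)) := by
    have h1 := hasProd_prod_of_ne_finset_one (L := SummationFilter.unconditional _)
      (f := fun p : Nat.Primes => if (p : ℕ) ∣ M then 1 - 1 / ((p : ℕ) : ℝ) ^ 2 else (1 : ℝ))
      (s := M.primeFactors.subtype Nat.Prime) (by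
        intro p hp
        rw [if_neg]
        intro h
        exact hp (Finset.mem_subtype.2 (Nat.mem_primeFactors.2 ⟨p.2, h, hM⟩)))
    have h2 : ∏ p ∈ M.primeFactors.subtype Nat.Prime,
        (if (p : ℕ) ∣ M then 1 - 1 / ((p : ℕ) : ℝ) ^ 2 else (1 : ℝ)) =
        ∏ p ∈ M.primeFactors, (1 - 1 / (p : ℝ) ^ 2) := by
      rw [Finset.prod_subtype_of_mem (fun p : ℕ => if p ∣ M then 1 - 1 / (p : ℝ) ^ 2 else (1 : ℝ))
        (fun p hp => Nat.prime_of_mem_primeFactors hp)]
      refine Finset.prod_congr rfl fun p hp => ?_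
      rw [if_pos (Nat.dvd_of_mem_primeFactors hp)]
    rw [← h2]
    exact h1
  have hAC := hA.mul hC
  have e : (fun p : Nat.Primes => (if (p : ℕ) ∣ M then (1 : ℝ) else 1 - 1 / ((p : ℕ) : ℝ) ^ 2) *
      (if (p : ℕ) ∣ M then 1 - 1 / ((p : ℕ) : ℝ) ^ 2 else (1 : ℝ))) =
      fun p : Nat.Primes => if (p : ℕ) ∣ 1 then (1 : ℝ) else 1 - 1 / ((p : ℕ) : ℝ) ^ 2 := by
    funext p
    have hp : ¬ (p : ℕ) ∣ 1 := p.2.not_dvd_one
    rw [if_neg hp]
    by_cases hd : (p : ℕ) ∣ M
    · rw [if_pos hd, if_pos hd, one_mul]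
    · rw [if_neg hd, if_neg hd, mul_one]
  rw [e] at hAC
  rw [← h6]
  exact hAC.unique hB

/-- truncation -/
theorem F_trunc (M N : ℕ) :
    |(∑ l ∈ Icc 1 N, F M l) - ∑' l, F M l| ≤ 2 / ((N : ℝ) + 1) := by
  have h0 : F M 0 = 0 := by simp [F, mu]
  have hs : Summable (F M) := (F_summable M).of_norm
  have h1 : ∀ K : ℕ, |(∑ l ∈ Icc 1 N, F M l) - ∑ l ∈ range K, F M l| ≤ 2 / ((N : ℝ) + 1) ∨ K ≤ N := by
    intro K
    by_cases hK : K ≤ N
    · exact Or.inr hK
    · left
      push Not at hK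
      have h2 : ∑ l ∈ range K, F M l = (∑ l ∈ Icc 1 N, F M l) + ∑ l ∈ Ioo N K, F M l := by
        have e1 : range K = (insert 0 (Icc 1 N)) ∪ Ioo N K := by
          ext x
          simp only [mem_range, mem_union, mem_insert, mem_Icc, mem_Ioo]
          omega
        rw [e1, Finset.sum_union, Finset.sum_insert (by simp), h0, zero_add]
        rw [Finset.disjoint_left]
        intro x hx hx'
        simp only [mem_insert, mem_Icc, mem_Ioo] at hx hx'
        omega
      rw [h2, sub_add_cancel_left, abs_neg]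
      calc |∑ l ∈ Ioo N K, F M l| ≤ ∑ l ∈ Ioo N K, |F M l| := Finset.abs_sum_le_sum_abs _ _
        _ ≤ ∑ l ∈ Ioo N K, ((l : ℝ) ^ 2)⁻¹ := by
            refine Finset.sum_le_sum fun l _ => ?_
            rw [← one_div]
            exact F_le M l
        _ ≤ 2 / ((N : ℝ) + 1) := sum_Ioo_inv_sq_le N K
  have hlim := hs.hasSum.tendsto_sum_nat
  have hlim2 : Tendsto (fun K : ℕ => |(∑ l ∈ Icc 1 N, F M l) - ∑ l ∈ range K, F M l|) atTop
      (𝓝 |(∑ l ∈ Icc 1 N, F M l) - ∑' l, F M l|) := (tendsto_const_nhds.sub hlim).abs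
  refine le_of_tendsto hlim2 ?_
  filter_upwards [eventually_gt_atTop N] with K hK
  rcases h1 K with h | h
  · exact h
  · omega

end Pool.Agent.Y900.QF
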