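import Pool.Agent.Y369.QF.NsqB
import Pool.Agent.Y900.QF.SqfA
import Pool.Agent.Y752.QF.Stm3

set_option autoImplicit false

/-!
# Project QF: squarefree numbers in a class mod 8 with a coprimality condition, twisted by a
# nontrivial Jacobi symbol
-/

namespace Pool.Agent.Y900.QF

open Finset
open Pool.Agent.Y369.QF (class_sum sum_min sqf_ind sq_mod8 BB BB_le)
open Pool.Agent.H66R2.RZFI1 (mu mu_abs)

/-- the Jacobi symbol as a real number -/
noncomputable def jr (n d : ℕ) : ℝ := ((jacobiSym (d : ℤ) n : ℤ) : ℝ)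

theorem jr_mul (n a b : ℕ) : jr n (a * b) = jr n a * jr n b := by
  unfold jr
  rw [Nat.cast_mul, jacobiSym.mul_left, Int.cast_mul]

theorem jr_abs (n d : ℕ) : |jr n d| ≤ 1 := by
  unfold jr
  rw [← Int.cast_abs]
  exact_mod_cast Pool.Agent.H379R2.W.jacobi_natAbs_le (d : ℤ) n

theorem BB_nonneg (n : ℕ) : 0 ≤ BB n := by
  unfold BB
  have := Real.log_natCast_nonneg n
  positivity

theorem class_r (n : ℕ) (ho : Odd n) (hn : ¬ IsSquare n) (a N : ℕ) (ha8 : a < 8) (ha1 : 1 ≤ a) :
    |∑ e ∈ (Icc 1 N).filter (fun e => e % 8 = a), jr n e| ≤ 2 * BB n := by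
  have h := class_sum n ho hn a N ha8 ha1
  rw [Int.cast_sum] at h
  exact h

/-- multiples of `f` in a class -/
theorem class_f (n : ℕ) (ho : Odd n) (hn : ¬ IsSquare n) (a N f : ℕ) (ha8 : a < 8)
    (ha1 : a % 2 = 1) (hf : 1 ≤ f) :
    |∑ e ∈ (Icc 1 N).filter (fun e => e % 8 = a ∧ f ∣ e), jr n e| ≤ 2 * BB n := by
  have hBB := BB_nonneg n
  rcases Nat.even_or_odd f with he | hfo
  · have h1 : (Icc 1 N).filter (fun e => e % 8 = a ∧ f ∣ e) = ∅ := by
      rw [filter_eq_empty_iff]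
      rintro e _ ⟨h1, h2⟩
      have h3 : 2 ∣ e := he.two_dvd.trans h2
      omega
    rw [h1, sum_empty, abs_zero]
    positivity
  · have hf2 : f ^ 2 ≡ 1 [MOD 8] := by
      have := sq_mod8 (Nat.odd_iff.1 hfo)
      exact this
    have hiff : ∀ g : ℕ, (f * g) % 8 = a ↔ g % 8 = (f * a) % 8 := by
      intro g
      constructor
      · intro h
        have h1 : f * g ≡ a [MOD 8] := by rw [Nat.ModEq, h, Nat.mod_eq_of_lt ha8]
        have h2 : f * (f * g) ≡ f * a [MOD 8] := h1.mul_left f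
        have h3 : f * (f * g) ≡ g [MOD 8] := by
          have : f * (f * g) = f ^ 2 * g := by ring
          rw [this]
          have h4 := hf2.mul_right g
          rwa [one_mul] at h4
        exact h3.symm.trans h2
      · intro h
        have h1 : g ≡ f * a [MOD 8] := h
        have h2 : f * g ≡ f * (f * a) [MOD 8] := h1.mul_left f
        have h3 : f * (f * a) ≡ a [MOD 8] := by
          have : f * (f * a) = f ^ 2 * a := by ring
          rw [this]
          have h4 := hf2.mul_right a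
          rwa [one_mul] at h4
        have h4 := h2.trans h3
        rw [Nat.ModEq, Nat.mod_eq_of_lt ha8] at h4
        exact h4
    have h1 : ∑ e ∈ (Icc 1 N).filter (fun e => e % 8 = a ∧ f ∣ e), jr n e =
        ∑ g ∈ (Icc 1 (N / f)).filter (fun g => g % 8 = (f * a) % 8), jr n f * jr n g := by
      symm
      apply sum_nbij' (fun g => f * g) (fun e => e / f)
      · intro g hg
        rw [mem_filter, mem_Icc] at hg ⊢
        refine ⟨⟨?_, ?_⟩, (hiff g).2 hg.2, dvd_mul_right _ _⟩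
        · exact Nat.mul_pos hf hg.1.1
        · rw [mul_comm]
          exact (Nat.le_div_iff_mul_le hf).mp hg.1.2
      · intro e he
        rw [mem_filter, mem_Icc] at he ⊢
        obtain ⟨⟨h1, h2⟩, h3, k, hk⟩ := he
        have hk0 : k ≠ 0 := by rintro rfl; omega
        have e1 : e / f = k := by rw [hk]; exact Nat.mul_div_cancel_left k hf
        rw [e1]
        refine ⟨⟨by omega, ?_⟩, ?_⟩
        · rw [← e1]
          exact Nat.div_le_div_right h2
        · rw [hk] at h3
          exact (hiff k).1 h3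
      · intro g hg
        exact Nat.mul_div_cancel_left g hf
      · intro e he
        rw [mem_filter, mem_Icc] at he
        exact Nat.mul_div_cancel' he.2.2
      · intro g hg
        exact (jr_mul n f g).symm
    rw [h1, ← mul_sum, abs_mul]
    have ha' : 1 ≤ (f * a) % 8 := by
      have h2 : (f * a) % 2 = 1 := by
        rw [Nat.mul_mod, Nat.odd_iff.1 hfo, ha1]
      omega
    have h7 := class_r n ho hn ((f * a) % 8) (N / f) (Nat.mod_lt _ (by norm_num)) ha'
    calc _ ≤ 1 * (2 * BB n) := mul_le_mul (jr_abs n f) h7 (abs_nonneg _) zero_le_one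
      _ = _ := one_mul _

/-- numbers in a class coprime to `L` -/
theorem class_c (n : ℕ) (ho : Odd n) (hn : ¬ IsSquare n) (a N L : ℕ) (ha8 : a < 8)
    (ha1 : a % 2 = 1) (hL : 1 ≤ L) :
    |∑ e ∈ (Icc 1 N).filter (fun e => e % 8 = a ∧ e.Coprime L), jr n e| ≤
      L.divisors.card * (2 * BB n) := by
  have h1 : ∑ e ∈ (Icc 1 N).filter (fun e => e % 8 = a ∧ e.Coprime L), jr n e =
      ∑ f ∈ L.divisors, mu f *
        ∑ e ∈ (Icc 1 N).filter (fun e => e % 8 = a ∧ f ∣ e), jr n e := by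
    simp_rw [mul_sum, sum_filter]
    rw [sum_comm]
    refine sum_congr rfl fun e _ => ?_
    by_cases h8 : e % 8 = a
    · have h2 := mu_cop e L (by omega)
      have h3 : (if e % 8 = a ∧ e.Coprime L then jr n e else 0) =
          (if e.Coprime L then (1 : ℝ) else 0) * jr n e := by
        by_cases hc : e.Coprime L
        · rw [if_pos ⟨h8, hc⟩, if_pos hc, one_mul]
        · rw [if_neg (fun h => hc h.2), if_neg hc, zero_mul]
      rw [h3, h2, sum_mul]
      refine sum_congr rfl fun f _ => ?_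
      by_cases hf : f ∣ e
      · rw [if_pos hf, if_pos ⟨h8, hf⟩]
      · rw [if_neg hf, if_neg (fun h => hf h.2), zero_mul]
    · rw [if_neg (fun h => h8 h.1)]
      symm
      refine sum_eq_zero fun f _ => ?_
      rw [if_neg (fun h => h8 h.1)]
  rw [h1]
  calc _ ≤ ∑ f ∈ L.divisors, |mu f *
        ∑ e ∈ (Icc 1 N).filter (fun e => e % 8 = a ∧ f ∣ e), jr n e| := abs_sum_le_sum_abs _ _
    _ ≤ ∑ _f ∈ L.divisors, 2 * BB n := by
        refine sum_le_sum fun f hf => ?_
        rw [abs_mul]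
        calc _ ≤ 1 * (2 * BB n) := mul_le_mul (mu_abs f)
              (class_f n ho hn a N f ha8 ha1 (Nat.pos_of_mem_divisors hf)) (abs_nonneg _) zero_le_one
          _ = _ := one_mul _
    _ = _ := by rw [sum_const, nsmul_eq_mul]

/-- the inner sum -/
theorem innerC (n : ℕ) (ho : Odd n) (hn : ¬ IsSquare n) (a D L r : ℕ) (ha8 : a < 8)
    (ha1 : a % 2 = 1) (hL : 1 ≤ L) (hr : 1 ≤ r) :
    |∑ d ∈ (Icc 1 D).filter (fun d => (d % 8 = a ∧ d.Coprime L) ∧ r ^ 2 ∣ d), jr n d| ≤
      min ((D : ℝ) / (r : ℝ) ^ 2) (L.divisors.card * (2 * BB n)) := by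
  have hr2 : 0 < r ^ 2 := by positivity
  have hBB := BB_nonneg n
  by_cases hc : Odd r ∧ r.Coprime L
  · obtain ⟨hro, hrL⟩ := hc
    have hr1 : r % 2 = 1 := Nat.odd_iff.mp hro
    have h1 : ∑ d ∈ (Icc 1 D).filter (fun d => (d % 8 = a ∧ d.Coprime L) ∧ r ^ 2 ∣ d), jr n d =
        ∑ e ∈ (Icc 1 (D / r ^ 2)).filter (fun e => e % 8 = a ∧ e.Coprime L),
          jr n (r ^ 2) * jr n e := by
      symm
      apply sum_nbij' (fun e => r ^ 2 * e) (fun d => d / r ^ 2)
      · intro e he
        rw [mem_filter, mem_Icc] at he ⊢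
        refine ⟨⟨Nat.mul_pos hr2 he.1.1, ?_⟩, ⟨?_, ?_⟩, dvd_mul_right _ _⟩
        · rw [mul_comm]
          exact (Nat.le_div_iff_mul_le hr2).mp he.1.2
        · rw [Nat.mul_mod, sq_mod8 hr1, one_mul, Nat.mod_mod]
          exact he.2.1
        · exact Nat.Coprime.mul_left (hrL.pow_left 2) he.2.2
      · intro d hd
        rw [mem_filter, mem_Icc] at hd ⊢
        obtain ⟨⟨h1, h2⟩, ⟨h3, h4⟩, k, hk⟩ := hd
        have hk0 : k ≠ 0 := by rintro rfl; omega
        have e1 : d / r ^ 2 = k := by rw [hk]; exact Nat.mul_div_cancel_left k hr2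
        rw [e1]
        refine ⟨⟨by omega, ?_⟩, ?_, ?_⟩
        · rw [← e1]
          exact Nat.div_le_div_right h2
        · rw [hk, Nat.mul_mod, sq_mod8 hr1, one_mul, Nat.mod_mod] at h3
          exact h3
        · rw [hk] at h4
          exact Nat.Coprime.coprime_mul_left h4
      · intro e he
        exact Nat.mul_div_cancel_left e hr2
      · intro d hd
        rw [mem_filter, mem_Icc] at hd
        exact Nat.mul_div_cancel' hd.2.2
      · intro e he
        exact (jr_mul n (r ^ 2) e).symm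
    rw [h1, ← mul_sum, abs_mul]
    have h7 : |∑ e ∈ (Icc 1 (D / r ^ 2)).filter (fun e => e % 8 = a ∧ e.Coprime L), jr n e| ≤
        min ((D : ℝ) / (r : ℝ) ^ 2) (L.divisors.card * (2 * BB n)) := by
      apply le_min
      · refine (abs_sum_le_sum_abs _ _).trans ?_
        refine (sum_le_sum fun e _ => jr_abs n e).trans ?_
        rw [sum_const, nsmul_eq_mul, mul_one]
        have h9 : ((Icc 1 (D / r ^ 2)).filter (fun e => e % 8 = a ∧ e.Coprime L)).card ≤
            D / r ^ 2 := by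
          refine (card_filter_le _ _).trans ?_
          rw [Nat.card_Icc, Nat.add_sub_cancel]
        calc ((((Icc 1 (D / r ^ 2)).filter (fun e => e % 8 = a ∧ e.Coprime L)).card : ℕ) : ℝ) ≤
              ((D / r ^ 2 : ℕ) : ℝ) := by exact_mod_cast h9
          _ ≤ (D : ℝ) / ((r ^ 2 : ℕ) : ℝ) := Nat.cast_div_le
          _ = _ := by push_cast; rfl
      · exact class_c n ho hn a _ L ha8 ha1 hL
    calc _ ≤ 1 * min ((D : ℝ) / (r : ℝ) ^ 2) (L.divisors.card * (2 * BB n)) :=
          mul_le_mul (jr_abs n _) h7 (abs_nonneg _) zero_le_one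
      _ = _ := one_mul _
  · have h1 : (Icc 1 D).filter (fun d => (d % 8 = a ∧ d.Coprime L) ∧ r ^ 2 ∣ d) = ∅ := by
      rw [filter_eq_empty_iff]
      rintro d _ ⟨⟨h1, h2⟩, h3⟩
      apply hc
      have h4 : r ∣ d := (dvd_pow_self r two_ne_zero).trans h3
      refine ⟨?_, Nat.Coprime.coprime_dvd_left h4 h2⟩
      have hd : Odd d := by
        rw [Nat.odd_iff]
        omega
      exact Odd.of_dvd_nat hd h4
    rw [h1, sum_empty, abs_zero]
    apply le_min
    · positivity
    · positivity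

open Classical in
theorem main_boundC (n : ℕ) (ho : Odd n) (hn : ¬ IsSquare n) (a D L : ℕ) (ha8 : a < 8)
    (ha1 : a % 2 = 1) (hL : 1 ≤ L) :
    |∑ d ∈ (Icc 1 D).filter (fun d => Squarefree d ∧ d % 8 = a ∧ Nat.Coprime d L), jr n d| ≤
      4 * Real.sqrt D * Real.sqrt (L.divisors.card * (2 * BB n)) := by
  rcases Nat.eq_zero_or_pos D with rfl | hD
  · simp
  have hn1 : 1 ≤ n := ho.pos
  have hBB : 0 < BB n := by
    unfold BB
    have := Real.log_natCast_nonneg n
    have h2 : 0 < n.divisors.card := card_pos.mpr ⟨1, Nat.one_mem_divisors.mpr (by omega)⟩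
    have h3 : (0 : ℝ) < n.divisors.card := by exact_mod_cast h2
    have h4 : (0 : ℝ) < n := by exact_mod_cast hn1
    have h5 : 0 < Real.sqrt n := Real.sqrt_pos.mpr h4
    positivity
  have hτ : (0 : ℝ) < L.divisors.card := by
    have : 0 < L.divisors.card := card_pos.mpr ⟨1, Nat.one_mem_divisors.mpr (by omega)⟩
    exact_mod_cast this
  have h1 : ∑ d ∈ (Icc 1 D).filter (fun d => Squarefree d ∧ d % 8 = a ∧ Nat.Coprime d L), jr n d =
      ∑ r ∈ Icc 1 D, mu r *
        ∑ d ∈ (Icc 1 D).filter (fun d => (d % 8 = a ∧ d.Coprime L) ∧ r ^ 2 ∣ d), jr n d := by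
    simp_rw [mul_sum, sum_filter]
    rw [sum_comm]
    apply sum_congr rfl
    intro d hd
    rw [mem_Icc] at hd
    have h2 := sqf_ind hd.1 hd.2
    rw [sum_filter] at h2
    have h2' : ∑ r ∈ Icc 1 D, (if r ^ 2 ∣ d then mu r else 0) =
        if Squarefree d then (1 : ℝ) else 0 := by
      have := congrArg (fun z : ℤ => (z : ℝ)) h2
      push_cast at this
      exact this
    by_cases h3 : d % 8 = a ∧ d.Coprime L
    · have h4 : ∀ r ∈ Icc 1 D,
          (if (d % 8 = a ∧ d.Coprime L) ∧ r ^ 2 ∣ d then mu r * jr n d else 0) =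
          (if r ^ 2 ∣ d then mu r else 0) * jr n d := by
        intro r _
        by_cases h5 : r ^ 2 ∣ d
        · rw [if_pos ⟨h3, h5⟩, if_pos h5]
        · rw [if_neg (fun h => h5 h.2), if_neg h5, zero_mul]
      rw [sum_congr rfl h4, ← sum_mul, h2']
      by_cases h5 : Squarefree d
      · rw [if_pos ⟨h5, h3⟩, if_pos h5, one_mul]
      · rw [if_neg (fun h => h5 h.1), if_neg h5, zero_mul]
    · rw [if_neg (fun h => h3 h.2)]
      symm
      refine sum_eq_zero fun r _ => ?_
      rw [if_neg (fun h => h3 h.1)]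
  rw [h1]
  refine (abs_sum_le_sum_abs _ _).trans ?_
  have h2 : ∀ r ∈ Icc 1 D, |mu r *
      ∑ d ∈ (Icc 1 D).filter (fun d => (d % 8 = a ∧ d.Coprime L) ∧ r ^ 2 ∣ d), jr n d| ≤
      min (Real.sqrt D ^ 2 / (r : ℝ) ^ 2) (Real.sqrt (L.divisors.card * (2 * BB n)) ^ 2) := by
    intro r hr
    rw [mem_Icc] at hr
    rw [Real.sq_sqrt (Nat.cast_nonneg D), Real.sq_sqrt (by positivity), abs_mul]
    calc _ ≤ 1 * _ := mul_le_mul_of_nonneg_right (mu_abs r) (abs_nonneg _)
      _ ≤ _ := by rw [one_mul]; exact innerC n ho hn a D L r ha8 ha1 hL hr.1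
  refine (sum_le_sum h2).trans ?_
  apply sum_min
  · exact Real.sqrt_pos.mpr (by exact_mod_cast hD)
  · exact Real.sqrt_pos.mpr (by positivity)

theorem NSQC : Pool.Agent.Y752.QF.S_NSQC := by
  intro ε hε
  obtain ⟨C, hC, hB⟩ := BB_le ε hε
  obtain ⟨C1, hC1, hd⟩ := H353.divisor_bound_real (2 * ε) (by positivity)
  refine ⟨4 * (Real.sqrt (2 * C) * Real.sqrt C1), by positivity, ?_⟩
  intro D n a l ho hn ha hl
  have hn1 : 1 ≤ n := ho.pos
  have hn0 : (0 : ℝ) < n := by exact_mod_cast hn1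
  have hl0 : (0 : ℝ) < l := by exact_mod_cast hl
  have hD : 0 ≤ Real.sqrt D := Real.sqrt_nonneg _
  have hr : 0 ≤ (n : ℝ) ^ (1 / 4 + ε) := Real.rpow_nonneg hn0.le _
  have hr' : 0 ≤ (l : ℝ) ^ ε := Real.rpow_nonneg hl0.le _
  rcases lt_or_ge a 8 with ha8 | ha8
  · have h1 := main_boundC n ho hn a D l ha8 ha hl
    have h3 : Real.sqrt (l.divisors.card * (2 * BB n)) ≤
        (Real.sqrt C1 * (l : ℝ) ^ ε) * (Real.sqrt (2 * C) * (n : ℝ) ^ (1 / 4 + ε)) := by
      apply Real.sqrt_le_iff.mpr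
      refine ⟨by positivity, ?_⟩
      rw [mul_pow, mul_pow, mul_pow, Real.sq_sqrt (by positivity), Real.sq_sqrt (by positivity)]
      have h4 : ((n : ℝ) ^ (1 / 4 + ε)) ^ 2 = (n : ℝ) ^ (1 / 2 + 2 * ε) := by
        rw [← Real.rpow_natCast, ← Real.rpow_mul hn0.le]
        congr 1
        push_cast
        ring
      have h5 : ((l : ℝ) ^ ε) ^ 2 = (l : ℝ) ^ (2 * ε) := by
        rw [← Real.rpow_natCast, ← Real.rpow_mul hl0.le]
        congr 1
        push_cast
        ring
      rw [h4, h5]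
      have h6 := hB n hn1
      have h7 := hd l (by omega)
      have h8 := BB_nonneg n
      calc (l.divisors.card : ℝ) * (2 * BB n) ≤
            (C1 * (l : ℝ) ^ (2 * ε)) * (2 * (C * (n : ℝ) ^ (1 / 2 + 2 * ε))) := by gcongr
        _ = _ := by ring
    calc _ ≤ 4 * Real.sqrt D * Real.sqrt (l.divisors.card * (2 * BB n)) := h1
      _ ≤ 4 * Real.sqrt D * ((Real.sqrt C1 * (l : ℝ) ^ ε) *
          (Real.sqrt (2 * C) * (n : ℝ) ^ (1 / 4 + ε))) := by gcongr
      _ = _ := by ring
  · have h1 : (Icc 1 D).filter (fun d => Squarefree d ∧ d % 8 = a ∧ Nat.Coprime d l) = ∅ := by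
      rw [filter_eq_empty_iff]
      rintro d _ ⟨_, h2, _⟩
      have := Nat.mod_lt d (show 8 > 0 by norm_num)
      omega
    rw [h1, sum_empty, abs_zero]
    positivity

end Pool.Agent.Y900.QF
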