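import Pool.Agent.Y900.QF.SqfA

/-!
# Project QF: squarefree numbers in a class mod 8, coprime to `m`
-/

set_option autoImplicit false

namespace Pool.Agent.Y900.QF

open Finset Filter Topology
open Pool.Agent.H66R2.RZFI1 (mu mu_abs mu_summable mu_tsum mu_sq_eq)

open Classical in
/-- multiples of a square -/
theorem cnt_sq (D P a l : ℕ) (hl : 1 ≤ l) (ha : a % 2 = 1) :
    ((Icc 1 D).filter fun d => (d % 8 = a ∧ d.Coprime P) ∧ l ^ 2 ∣ d).card =
      if l.Coprime (2 * P) then Ac P a (D / l ^ 2) else 0 := by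
  have hl2 : 0 < l ^ 2 := by positivity
  split_ifs with hc
  · rw [Nat.coprime_mul_iff_right] at hc
    obtain ⟨hc1, hc2⟩ := hc
    obtain ⟨t, ht⟩ : ∃ t, l ^ 2 = 8 * t + 1 := by
      obtain ⟨k, rfl⟩ := Nat.coprime_two_right.1 hc1
      obtain ⟨t, ht⟩ := (Nat.even_mul_succ_self k).exists_two_nsmul
      refine ⟨t, ?_⟩
      rw [smul_eq_mul] at ht
      have : (2 * k + 1) ^ 2 = 4 * (k * (k + 1)) + 1 := by ring
      rw [this, show k * (k + 1) = k * k.succ from rfl, ht]
      ring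
    unfold Ac
    symm
    refine Finset.card_nbij (fun e => l ^ 2 * e) ?_ ?_ ?_
    · intro e he
      simp only [coe_filter, mem_Icc, Set.mem_ofPred_eq] at he
      obtain ⟨⟨h1, h2⟩, h3, h4⟩ := he
      simp only [coe_filter, mem_Icc, Set.mem_ofPred_eq]
      refine ⟨⟨Nat.mul_pos hl2 h1, ?_⟩, ⟨?_, ?_⟩, dvd_mul_right _ _⟩
      · have := Nat.mul_le_mul_left (l ^ 2) h2
        exact this.trans (Nat.mul_div_le D (l ^ 2))
      · have e1 : l ^ 2 * e = 8 * (t * e) + e := by rw [ht]; ring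
        rw [e1]
        omega
      · exact Nat.Coprime.mul_left (hc2.pow_left 2) h4
    · intro e _ e' _ h
      exact Nat.eq_of_mul_eq_mul_left hl2 h
    · intro d hd
      simp only [coe_filter, mem_Icc, Set.mem_ofPred_eq] at hd
      obtain ⟨⟨h1, h2⟩, ⟨h3, h4⟩, e, he⟩ := hd
      refine ⟨e, ?_, he.symm⟩
      simp only [coe_filter, mem_Icc, Set.mem_ofPred_eq]
      refine ⟨⟨?_, ?_⟩, ?_, ?_⟩
      · rcases Nat.eq_zero_or_pos e with h | h
        · rw [h, mul_zero] at he
          omega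
        · exact h
      · rw [Nat.le_div_iff_mul_le hl2, mul_comm, ← he]
        exact h2
      · have e1 : l ^ 2 * e = 8 * (t * e) + e := by rw [ht]; ring
        rw [he, e1] at h3
        omega
      · rw [he] at h4
        exact Nat.Coprime.coprime_mul_left h4
  · rw [Finset.card_eq_zero, Finset.filter_eq_empty_iff]
    rintro d _ ⟨⟨h3, h4⟩, h5⟩
    apply hc
    have h6 : l ∣ d := (dvd_pow_self l two_ne_zero).trans h5
    rw [Nat.coprime_mul_iff_right]
    refine ⟨?_, Nat.Coprime.coprime_dvd_left h6 h4⟩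
    rw [Nat.coprime_two_right]
    have hd : Odd d := by
      rw [Nat.odd_iff]
      omega
    exact Odd.of_dvd_nat hd h6

open Classical in
theorem count_eq (D P a : ℕ) (ha : a % 2 = 1) :
    (((Icc 1 D).filter fun d => Squarefree d ∧ d % 8 = a ∧ d.Coprime P).card : ℝ) =
      ∑ l ∈ Icc 1 (Nat.sqrt D), (if l.Coprime (2 * P) then mu l * Ac P a (D / l ^ 2) else 0) := by
  rw [Finset.card_filter]
  push_cast
  have h2 : ∀ d ∈ Icc 1 D, (if Squarefree d ∧ d % 8 = a ∧ d.Coprime P then (1 : ℝ) else 0) =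
      ∑ l ∈ Icc 1 (Nat.sqrt D), mu l *
        (if (d % 8 = a ∧ d.Coprime P) ∧ l ^ 2 ∣ d then (1 : ℝ) else 0) := by
    intro d hd
    rw [mem_Icc] at hd
    have h3 := mu_sq_eq d (by omega)
    rw [tsum_eq_sum (s := Icc 1 (Nat.sqrt D)) (by
      intro l hl
      rw [if_neg]
      intro hdvd
      apply hl
      rw [mem_Icc]
      refine ⟨?_, ?_⟩
      · rcases Nat.eq_zero_or_pos l with h | h
        · rw [h, zero_pow two_ne_zero, zero_dvd_iff] at hdvd
          omega
        · exact h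
      · rw [Nat.le_sqrt']
        exact (Nat.le_of_dvd (by omega) hdvd).trans hd.2)] at h3
    by_cases hc : d % 8 = a ∧ d.Coprime P
    · have e1 : (if Squarefree d ∧ d % 8 = a ∧ d.Coprime P then (1 : ℝ) else 0) =
          if Squarefree d then (1 : ℝ) else 0 := by
        by_cases hs : Squarefree d
        · rw [if_pos ⟨hs, hc⟩, if_pos hs]
        · rw [if_neg (fun h => hs h.1), if_neg hs]
      rw [e1, h3]
      refine Finset.sum_congr rfl fun l _ => ?_
      by_cases hl : l ^ 2 ∣ d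
      · rw [if_pos hl, if_pos ⟨hc, hl⟩, mul_one]
      · rw [if_neg hl, if_neg (fun h => hl h.2), mul_zero]
    · rw [if_neg (fun h => hc h.2)]
      symm
      refine Finset.sum_eq_zero fun l _ => ?_
      rw [if_neg (fun h => hc h.1), mul_zero]
  rw [Finset.sum_congr rfl h2, Finset.sum_comm]
  refine Finset.sum_congr rfl fun l hl => ?_
  rw [mem_Icc] at hl
  rw [← Finset.mul_sum]
  have h4 : ∑ d ∈ Icc 1 D, (if (d % 8 = a ∧ d.Coprime P) ∧ l ^ 2 ∣ d then (1 : ℝ) else 0) =
      (((Icc 1 D).filter fun d => (d % 8 = a ∧ d.Coprime P) ∧ l ^ 2 ∣ d).card : ℝ) := by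
    rw [Finset.card_filter]
    push_cast
    rfl
  rw [h4, cnt_sq D P a l hl.1 ha]
  split_ifs
  · rfl
  · rw [Nat.cast_zero, mul_zero]

open Classical in
theorem count_bd (D P a : ℕ) (hP : Odd P) (hs : Squarefree P) (ha : a % 2 = 1) (ha8 : a < 8) :
    |(((Icc 1 D).filter fun d => Squarefree d ∧ d % 8 = a ∧ d.Coprime P).card : ℝ) -
      (D : ℝ) / 8 * (∏ p ∈ P.primeFactors, (1 - 1 / (p : ℝ))) * ∑' l, F (2 * P) l| ≤
      2 * P.divisors.card * Real.sqrt D := by
  set φ : ℝ := ∏ p ∈ P.primeFactors, (1 - 1 / (p : ℝ)) with hφ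
  set N : ℕ := Nat.sqrt D with hN
  have hp1 : ∀ p ∈ P.primeFactors, (0 : ℝ) ≤ 1 - 1 / (p : ℝ) ∧ 1 - 1 / (p : ℝ) ≤ 1 := by
    intro p hp
    have : (1 : ℝ) ≤ p := by exact_mod_cast (Nat.prime_of_mem_primeFactors hp).one_lt.le
    constructor
    · rw [sub_nonneg, div_le_one (by linarith)]
      exact this
    · have : (0 : ℝ) ≤ 1 / p := by positivity
      linarith
  have hφ0 : 0 ≤ φ := Finset.prod_nonneg fun p hp => (hp1 p hp).1
  have hφ1 : φ ≤ 1 := Finset.prod_le_one (fun p hp => (hp1 p hp).1) fun p hp => (hp1 p hp).2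
  have hτ : (1 : ℝ) ≤ P.divisors.card := by
    have : 0 < P.divisors.card := Finset.card_pos.2 ⟨1, Nat.one_mem_divisors.2 hP.pos.ne'⟩
    exact_mod_cast this
  have hND : (N : ℝ) ≤ Real.sqrt D := by
    rw [hN]
    exact Real.nat_sqrt_le_real_sqrt
  have hND2 : Real.sqrt D ≤ (N : ℝ) + 1 := by
    rw [hN]
    exact Real.real_sqrt_le_nat_sqrt_succ
  -- first error
  have h1 : |(∑ l ∈ Icc 1 N, (if l.Coprime (2 * P) then mu l * Ac P a (D / l ^ 2) else 0)) -
      (D : ℝ) / 8 * φ * ∑ l ∈ Icc 1 N, F (2 * P) l| ≤ N * (P.divisors.card + 1 / 8) := by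
    rw [Finset.mul_sum, ← Finset.sum_sub_distrib]
    calc _ ≤ ∑ l ∈ Icc 1 N, |(if l.Coprime (2 * P) then mu l * Ac P a (D / l ^ 2) else 0) -
          (D : ℝ) / 8 * φ * F (2 * P) l| := Finset.abs_sum_le_sum_abs _ _
      _ ≤ ∑ _l ∈ Icc 1 N, ((P.divisors.card : ℝ) + 1 / 8) := by
          refine Finset.sum_le_sum fun l hl => ?_
          rw [mem_Icc] at hl
          unfold F
          split_ifs with hc
          · have hl0 : (0 : ℝ) < (l : ℝ) ^ 2 := by
              have : (0 : ℝ) < l := by exact_mod_cast hl.1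
              positivity
            have e1 : mu l * (Ac P a (D / l ^ 2) : ℝ) - (D : ℝ) / 8 * φ * (mu l / (l : ℝ) ^ 2) =
                mu l * (((Ac P a (D / l ^ 2) : ℝ) - ((D / l ^ 2 : ℕ) : ℝ) / 8 * φ) +
                  (((D / l ^ 2 : ℕ) : ℝ) - (D : ℝ) / (l : ℝ) ^ 2) * (φ / 8)) := by
              field_simp
              ring
            have e2 : |((D / l ^ 2 : ℕ) : ℝ) - (D : ℝ) / (l : ℝ) ^ 2| ≤ 1 := by
              have f1 : ((D / l ^ 2 : ℕ) : ℝ) ≤ (D : ℝ) / (l : ℝ) ^ 2 := by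
                have := @Nat.cast_div_le ℝ _ _ _ D (l ^ 2)
                push_cast at this
                exact this
              have f2 : (D : ℝ) / (l : ℝ) ^ 2 ≤ ((D / l ^ 2 : ℕ) : ℝ) + 1 := by
                rw [div_le_iff₀ hl0]
                have f3 : D < (D / l ^ 2 + 1) * l ^ 2 := by
                  have g1 := Nat.div_add_mod D (l ^ 2)
                  have g2 := Nat.mod_lt D (pow_pos hl.1 2)
                  calc D = l ^ 2 * (D / l ^ 2) + D % l ^ 2 := g1.symm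
                    _ < l ^ 2 * (D / l ^ 2) + l ^ 2 := Nat.add_lt_add_left g2 _
                    _ = (D / l ^ 2 + 1) * l ^ 2 := by ring
                have f4 : (D : ℝ) < (((D / l ^ 2 : ℕ) : ℝ) + 1) * (l : ℝ) ^ 2 := by exact_mod_cast f3
                exact f4.le
              rw [abs_le]
              constructor <;> linarith
            rw [e1, abs_mul]
            have e3 := Ac_bd P a (D / l ^ 2) hP hs ha8
            have e4 : |(((D / l ^ 2 : ℕ) : ℝ) - (D : ℝ) / (l : ℝ) ^ 2) * (φ / 8)| ≤ 1 / 8 := by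
              rw [abs_mul, abs_of_nonneg (by positivity : 0 ≤ φ / 8)]
              calc _ ≤ 1 * (φ / 8) := mul_le_mul_of_nonneg_right e2 (by positivity)
                _ ≤ 1 / 8 := by linarith
            calc |mu l| * |((Ac P a (D / l ^ 2) : ℝ) - ((D / l ^ 2 : ℕ) : ℝ) / 8 * φ) +
                  (((D / l ^ 2 : ℕ) : ℝ) - (D : ℝ) / (l : ℝ) ^ 2) * (φ / 8)|
                ≤ 1 * ((P.divisors.card : ℝ) + 1 / 8) := by
                  refine mul_le_mul (mu_abs l) ?_ (abs_nonneg _) zero_le_one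
                  exact (abs_add_le _ _).trans (add_le_add e3 e4)
              _ = (P.divisors.card : ℝ) + 1 / 8 := one_mul _
          · rw [mul_zero, sub_zero, abs_zero]
            linarith
      _ = N * (P.divisors.card + 1 / 8) := by
          rw [Finset.sum_const, Nat.card_Icc, nsmul_eq_mul, Nat.add_sub_cancel]
  -- second error
  have h2 : |(D : ℝ) / 8 * φ * (∑ l ∈ Icc 1 N, F (2 * P) l) -
      (D : ℝ) / 8 * φ * ∑' l, F (2 * P) l| ≤ Real.sqrt D / 4 := by
    rw [← mul_sub, abs_mul, abs_of_nonneg (by positivity : 0 ≤ (D : ℝ) / 8 * φ)]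
    have h3 := F_trunc (2 * P) N
    have hs0 : 0 ≤ Real.sqrt D := Real.sqrt_nonneg _
    have hsq : Real.sqrt D * Real.sqrt D = D := Real.mul_self_sqrt (Nat.cast_nonneg D)
    have hN1 : (0 : ℝ) < (N : ℝ) + 1 := by positivity
    calc (D : ℝ) / 8 * φ * |(∑ l ∈ Icc 1 N, F (2 * P) l) - ∑' l, F (2 * P) l|
        ≤ (D : ℝ) / 8 * 1 * (2 / ((N : ℝ) + 1)) := by gcongr
      _ = (D : ℝ) / ((N : ℝ) + 1) / 4 := by field_simp; ring
      _ ≤ Real.sqrt D / 4 := by
          have : (D : ℝ) / ((N : ℝ) + 1) ≤ Real.sqrt D := by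
            rw [div_le_iff₀ hN1]
            calc (D : ℝ) = Real.sqrt D * Real.sqrt D := hsq.symm
              _ ≤ Real.sqrt D * ((N : ℝ) + 1) := mul_le_mul_of_nonneg_left hND2 hs0
          linarith
  rw [count_eq D P a ha]
  have hs0 : 0 ≤ Real.sqrt D := Real.sqrt_nonneg _
  have h3 := abs_add_le ((∑ l ∈ Icc 1 N, (if l.Coprime (2 * P) then mu l * Ac P a (D / l ^ 2)
    else 0)) - (D : ℝ) / 8 * φ * ∑ l ∈ Icc 1 N, F (2 * P) l)
    ((D : ℝ) / 8 * φ * (∑ l ∈ Icc 1 N, F (2 * P) l) - (D : ℝ) / 8 * φ * ∑' l, F (2 * P) l)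
  rw [sub_add_sub_cancel] at h3
  refine h3.trans ((add_le_add h1 h2).trans ?_)
  have h4 : (N : ℝ) * (P.divisors.card + 1 / 8) ≤ Real.sqrt D * (P.divisors.card + 1 / 8) :=
    mul_le_mul_of_nonneg_right hND (by positivity)
  nlinarith

open Classical in
/-- the theorem, in the form of project QF -/
theorem sqf : ∃ C : ℝ, 0 < C ∧ ∀ D m a : ℕ, 1 ≤ m → a < 8 → a % 2 = 1 →
  |(((Finset.Icc 1 D).filter fun d => Squarefree d ∧ d % 8 = a ∧ d.Coprime m).card : ℝ) -
    1 / Real.pi ^ 2 * D * ∏ p ∈ m.primeFactors.erase 2, ((p : ℝ) / (p + 1))| ≤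
    C * m.divisors.card * Real.sqrt D := by
  refine ⟨2, by norm_num, ?_⟩
  intro D m a hm ha8 ha
  set S : Finset ℕ := m.primeFactors.erase 2 with hS
  have hSp : ∀ p ∈ S, p.Prime := fun p hp => Nat.prime_of_mem_primeFactors (Finset.mem_of_mem_erase hp)
  have hS2 : ∀ p ∈ S, p ≠ 2 := fun p hp => (Finset.mem_erase.1 hp).1
  set P : ℕ := ∏ p ∈ S, p with hPdef
  have hPf : P.primeFactors = S := Nat.primeFactors_prod hSp
  have hPm : P ∣ m := (Finset.prod_dvd_prod_of_subset _ _ _ (Finset.erase_subset _ _)).trans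
    (Nat.prod_primeFactors_dvd m)
  have hP0 : P ≠ 0 := by
    rintro h
    rw [h, zero_dvd_iff] at hPm
    omega
  have hsq : Squarefree P := by
    refine Finset.squarefree_prod_of_pairwise_isCoprime (fun p hp q hq hpq => ?_)
      fun p hp => (hSp p hp).squarefree
    simp only [← Nat.coprime_iff_isRelPrime]
    exact (Nat.coprime_primes (hSp p hp) (hSp q hq)).mpr hpq
  have hPo : Odd P := by
    rw [← Nat.not_even_iff_odd, even_iff_two_dvd]
    intro h
    have : 2 ∈ P.primeFactors := Nat.mem_primeFactors.2 ⟨Nat.prime_two, h, hP0⟩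
    rw [hPf] at this
    exact hS2 2 this rfl
  have hset : ((Finset.Icc 1 D).filter fun d => Squarefree d ∧ d % 8 = a ∧ d.Coprime m) =
      (Finset.Icc 1 D).filter fun d => Squarefree d ∧ d % 8 = a ∧ d.Coprime P := by
    refine Finset.filter_congr fun d _ => ?_
    refine and_congr_right fun _ => and_congr_right fun h8 => ?_
    constructor
    · intro h
      exact Nat.Coprime.coprime_dvd_right hPm h
    · intro h
      by_contra hc
      rw [Nat.Prime.not_coprime_iff_dvd] at hc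
      obtain ⟨p, hp, hpd, hpm⟩ := hc
      have hp2 : p ≠ 2 := by
        rintro rfl
        omega
      have hpS : p ∈ S := Finset.mem_erase.2 ⟨hp2, Nat.mem_primeFactors.2 ⟨hp, hpm, by omega⟩⟩
      have hpP : p ∣ P := Finset.dvd_prod_of_mem _ hpS
      exact Nat.Prime.not_coprime_iff_dvd.2 ⟨p, hp, hpd, hpP⟩ h
  rw [hset]
  have h1 := count_bd D P a hPo hsq ha ha8
  have hT := F_tsum (2 * P) (mul_ne_zero two_ne_zero hP0)
  have h2P : (2 * P).primeFactors = insert 2 S := by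
    rw [Nat.primeFactors_mul two_ne_zero hP0, hPf, Nat.Prime.primeFactors Nat.prime_two]
    rfl
  have h2S : 2 ∉ S := fun h => hS2 2 h rfl
  rw [h2P, Finset.prod_insert h2S] at hT
  have hmain : (D : ℝ) / 8 * (∏ p ∈ P.primeFactors, (1 - 1 / (p : ℝ))) * ∑' l, F (2 * P) l =
      1 / Real.pi ^ 2 * D * ∏ p ∈ S, ((p : ℝ) / (p + 1)) := by
    rw [hPf]
    have hb : ∀ p ∈ S, (p : ℝ) ≠ 0 := fun p hp => by
      have := (hSp p hp).pos
      positivity
    have e1 : ∏ p ∈ S, (1 - 1 / (p : ℝ) ^ 2) =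
        (∏ p ∈ S, (1 - 1 / (p : ℝ))) * ∏ p ∈ S, (1 + 1 / (p : ℝ)) := by
      rw [← Finset.prod_mul_distrib]
      refine Finset.prod_congr rfl fun p hp => ?_
      have := hb p hp
      field_simp
      ring
    have e2 : (∏ p ∈ S, ((p : ℝ) / (p + 1))) * ∏ p ∈ S, (1 + 1 / (p : ℝ)) = 1 := by
      rw [← Finset.prod_mul_distrib]
      refine Finset.prod_eq_one fun p hp => ?_
      have := hb p hp
      have h3 : (p : ℝ) + 1 ≠ 0 := by positivity
      field_simp
    rw [e1] at hT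
    set T : ℝ := ∑' l, F (2 * P) l
    set A : ℝ := ∏ p ∈ S, (1 - 1 / (p : ℝ))
    set B : ℝ := ∏ p ∈ S, (1 + 1 / (p : ℝ))
    set Q : ℝ := ∏ p ∈ S, ((p : ℝ) / (p + 1))
    have e3 : T * A * B = 8 / Real.pi ^ 2 := by
      have : T * ((1 - 1 / ((2 : ℕ) : ℝ) ^ 2) * (A * B)) = 3 / 4 * (T * A * B) := by
        push_cast
        ring
      rw [this] at hT
      have h5 : T * A * B = 4 / 3 * (6 / Real.pi ^ 2) := by linarith
      rw [h5]
      ring
    have e4 : T * A = 8 / Real.pi ^ 2 * Q := by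
      calc T * A = T * A * B * Q := by
            rw [mul_assoc, mul_comm B Q, e2, mul_one]
        _ = _ := by rw [e3]
    calc (D : ℝ) / 8 * A * T = (D : ℝ) / 8 * (T * A) := by ring
      _ = 1 / Real.pi ^ 2 * D * Q := by rw [e4]; ring
  rw [hmain] at h1
  refine h1.trans ?_
  have h5 : (P.divisors.card : ℝ) ≤ m.divisors.card := by
    exact_mod_cast Finset.card_le_card (Nat.divisors_subset_of_dvd (by omega) hPm)
  gcongr

end Pool.Agent.Y900.QF
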